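import Mathlib

/-!
# A metric space with two non-isometric square roots

For metric spaces `A`, `B` the type `WithLp 2 (A × B)` carries the Euclidean product metric
`ρ((a, b), (a', b')) = (ρ(a, a')² + ρ(b, b')²)^(1/2)`.

Let `A = ℚ` and `B = √2 ℚ`, both with the usual distance of the real line. They are not isometric,
since all distances in `A` are rational and `√2` is a distance in `B`. But the squares are
isometric: the bijection `(x, y) ↦ (x + y, x - y)` of `ℚ²` multiplies all Euclidean distances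
by `√2`.
-/

set_option autoImplicit false

namespace Pool.Agent.Results.MP_1231ed_gt.RationalSquareRoot

/-- the rational line `ℚ`, as a subgroup of `ℝ` -/
noncomputable def ratLine : AddSubgroup ℝ := (Rat.castHom ℝ : ℚ →+* ℝ).toAddMonoidHom.range

/-- the stretched rational line `√2 ℚ`, as a subgroup of `ℝ` -/
noncomputable def sqrtTwoRatLine : AddSubgroup ℝ :=
  ratLine.map (AddMonoidHom.mulLeft (√2 : ℝ))

lemma mem_ratLine {x : ℝ} : x ∈ ratLine ↔ ∃ q : ℚ, (q : ℝ) = x := by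
  simp [ratLine]

lemma mem_sqrtTwoRatLine {x : ℝ} : x ∈ sqrtTwoRatLine ↔ ∃ q : ℚ, √2 * (q : ℝ) = x := by
  simp [sqrtTwoRatLine, mem_ratLine]

/-- the bijection `(x, y) ↦ ((x + y) / √2, (x - y) / √2)` from `ℚ²` to `(√2 ℚ)²` -/
noncomputable def rotate : WithLp 2 (ratLine × ratLine) ≃
    WithLp 2 (sqrtTwoRatLine × sqrtTwoRatLine) where
  toFun p := WithLp.toLp 2
    (⟨√2 * (((p.fst : ℝ) + (p.snd : ℝ)) / 2), by
      obtain ⟨x, hx⟩ := mem_ratLine.1 p.fst.2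
      obtain ⟨y, hy⟩ := mem_ratLine.1 p.snd.2
      exact mem_sqrtTwoRatLine.2 ⟨(x + y) / 2, by push_cast; rw [hx, hy]⟩⟩,
     ⟨√2 * (((p.fst : ℝ) - (p.snd : ℝ)) / 2), by
      obtain ⟨x, hx⟩ := mem_ratLine.1 p.fst.2
      obtain ⟨y, hy⟩ := mem_ratLine.1 p.snd.2
      exact mem_sqrtTwoRatLine.2 ⟨(x - y) / 2, by push_cast; rw [hx, hy]⟩⟩)
  invFun p := WithLp.toLp 2
    (⟨((p.fst : ℝ) + (p.snd : ℝ)) / √2, by
      obtain ⟨x, hx⟩ := mem_sqrtTwoRatLine.1 p.fst.2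
      obtain ⟨y, hy⟩ := mem_sqrtTwoRatLine.1 p.snd.2
      exact mem_ratLine.2 ⟨x + y, by push_cast; rw [← hx, ← hy]; field_simp⟩⟩,
     ⟨((p.fst : ℝ) - (p.snd : ℝ)) / √2, by
      obtain ⟨x, hx⟩ := mem_sqrtTwoRatLine.1 p.fst.2
      obtain ⟨y, hy⟩ := mem_sqrtTwoRatLine.1 p.snd.2
      exact mem_ratLine.2 ⟨x - y, by push_cast; rw [← hx, ← hy]; field_simp⟩⟩)
  left_inv p := by
    have h : (√2 : ℝ) ≠ 0 := by positivity
    refine WithLp.ofLp_injective 2 (Prod.ext (Subtype.ext ?_) (Subtype.ext ?_))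
    · change (√2 * (((p.fst : ℝ) + (p.snd : ℝ)) / 2) + √2 * (((p.fst : ℝ) - (p.snd : ℝ)) / 2)) / √2
        = (p.fst : ℝ)
      field_simp
      ring
    · change (√2 * (((p.fst : ℝ) + (p.snd : ℝ)) / 2) - √2 * (((p.fst : ℝ) - (p.snd : ℝ)) / 2)) / √2
        = (p.snd : ℝ)
      field_simp
      ring
  right_inv p := by
    have h : (√2 : ℝ) ≠ 0 := by positivity
    refine WithLp.ofLp_injective 2 (Prod.ext (Subtype.ext ?_) (Subtype.ext ?_))
    · change √2 * ((((p.fst : ℝ) + (p.snd : ℝ)) / √2 + ((p.fst : ℝ) - (p.snd : ℝ)) / √2) / 2)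
        = (p.fst : ℝ)
      field_simp
      ring
    · change √2 * ((((p.fst : ℝ) + (p.snd : ℝ)) / √2 - ((p.fst : ℝ) - (p.snd : ℝ)) / √2) / 2)
        = (p.snd : ℝ)
      field_simp
      ring

lemma isometry_rotate : Isometry rotate := by
  refine Isometry.of_dist_eq fun p q => ?_
  rw [WithLp.prod_dist_eq_of_L2, WithLp.prod_dist_eq_of_L2]
  congr 1
  rw [Subtype.dist_eq, Subtype.dist_eq, Subtype.dist_eq, Subtype.dist_eq, Real.dist_eq,
    Real.dist_eq, Real.dist_eq, Real.dist_eq, sq_abs, sq_abs, sq_abs, sq_abs]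
  change (√2 * (((p.fst : ℝ) + (p.snd : ℝ)) / 2) - √2 * (((q.fst : ℝ) + (q.snd : ℝ)) / 2)) ^ 2 +
    (√2 * (((p.fst : ℝ) - (p.snd : ℝ)) / 2) - √2 * (((q.fst : ℝ) - (q.snd : ℝ)) / 2)) ^ 2 = _
  have h : (√2 : ℝ) ^ 2 = 2 := Real.sq_sqrt (by norm_num)
  linear_combination (((p.fst : ℝ) - (q.fst : ℝ)) ^ 2 + ((p.snd : ℝ) - (q.snd : ℝ)) ^ 2) / 2 * h

/-- **Theorem.** There are metric spaces `A` and `B` (countable dense subgroups of the real line,
with the usual distance `|x - y|`) which are not isometric although `A²` and `B²`, each with the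
Euclidean product metric, are isometric. (The proof takes `A = ℚ` and `B = √2 ℚ`.) -/
theorem result :
    ∃ A B : AddSubgroup ℝ, Countable A ∧ Countable B ∧ Dense (A : Set ℝ) ∧ Dense (B : Set ℝ) ∧
      IsEmpty (A ≃ᵢ B) ∧ Nonempty (WithLp 2 (A × A) ≃ᵢ WithLp 2 (B × B)) := by
  have hA : Dense (ratLine : Set ℝ) := by
    have : (ratLine : Set ℝ) = Set.range ((↑) : ℚ → ℝ) := by
      ext x; exact mem_ratLine
    rw [this]
    exact Rat.isDenseEmbedding_coe_real.dense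
  have hB : Dense (sqrtTwoRatLine : Set ℝ) := by
    have h2 : (√2 : ℝ) ≠ 0 := by positivity
    have : (sqrtTwoRatLine : Set ℝ) = (fun x => √2 * x) '' (ratLine : Set ℝ) := by
      ext x
      simp only [SetLike.mem_coe, mem_sqrtTwoRatLine, Set.mem_image, mem_ratLine]
      constructor
      · rintro ⟨q, hq⟩
        exact ⟨q, ⟨q, rfl⟩, hq⟩
      · rintro ⟨_, ⟨q, rfl⟩, hq⟩
        exact ⟨q, hq⟩
    rw [this]
    exact (Homeomorph.mulLeft₀ (√2 : ℝ) h2).surjective.denseRange.dense_image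
      (Homeomorph.mulLeft₀ (√2 : ℝ) h2).continuous hA
  refine ⟨ratLine, sqrtTwoRatLine, ?_, ?_, hA, hB, ⟨fun e => ?_⟩, ⟨⟨rotate, isometry_rotate⟩⟩⟩
  · have : Function.Surjective (fun q : ℚ => (⟨(q : ℝ), mem_ratLine.2 ⟨q, rfl⟩⟩ : ratLine)) := by
      rintro ⟨x, hx⟩
      obtain ⟨q, rfl⟩ := mem_ratLine.1 hx
      exact ⟨q, rfl⟩
    exact this.countable
  · have : Function.Surjective
        (fun q : ℚ => (⟨√2 * (q : ℝ), mem_sqrtTwoRatLine.2 ⟨q, rfl⟩⟩ : sqrtTwoRatLine)) := by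
      rintro ⟨x, hx⟩
      obtain ⟨q, rfl⟩ := mem_sqrtTwoRatLine.1 hx
      exact ⟨q, rfl⟩
    exact this.countable
  obtain ⟨x, hx⟩ := e.surjective 0
  obtain ⟨y, hy⟩ := e.surjective ⟨√2, mem_sqrtTwoRatLine.2 ⟨1, by simp⟩⟩
  have h := e.dist_eq y x
  rw [hx, hy, Subtype.dist_eq, Subtype.dist_eq, Real.dist_eq, Real.dist_eq] at h
  obtain ⟨a, ha⟩ := mem_ratLine.1 x.2
  obtain ⟨b, hb⟩ := mem_ratLine.1 y.2
  refine irrational_sqrt_two ⟨|b - a|, ?_⟩
  push_cast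
  rw [ha, hb, ← h]
  simp [abs_of_nonneg]

end Pool.Agent.Results.MP_1231ed_gt.RationalSquareRoot
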